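import Pool.Agent.P8H39.FDF.Stm

/-!
# Project FDF: TOP (cloning and blow-ups)
-/

set_option autoImplicit false

namespace Pool.Agent.P8H76.FDF

open P8H39.FDF Finset

section basic

variable {V W : Type}

/-- pull-back of a graph -/
def pull (g : W → V) (r : V → V → Bool) : W → W → Bool := fun a b => r (g a) (g b)

lemma pull_ori (g : W → V) {r : V → V → Bool} (h : Ori r) : Ori (pull g r) :=
  fun x y hxy => h (g x) (g y) hxy

lemma pull_noC4 (g : W → V) {r : V → V → Bool} (h : NoC4 r) : NoC4 (pull g r) :=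
  fun a b c d h1 h2 h3 h4 => h (g a) (g b) (g c) (g d) h1 h2 h3 h4

lemma miss_pull (g : W → V) (r : V → V → Bool) (x y z : W) :
    miss (pull g r) x y z = miss r (g x) (g y) (g z) := rfl

lemma B_nonneg (b : Bool) : 0 ≤ B b := by
  unfold B; split_ifs <;> norm_num

lemma B_le (b : Bool) : B b ≤ 1 := by
  unfold B; split_ifs <;> norm_num

lemma miss_swap (r : V → V → Bool) (x y z : V) : miss r x y z = miss r y x z := by
  simp only [miss, le1, adj]
  cases r x y <;> cases r y x <;> cases r x z <;> cases r z x <;> cases r y z <;> cases r z y <;> rfl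

lemma miss_swap' (r : V → V → Bool) (x y z : V) : miss r x y z = miss r x z y := by
  simp only [miss, le1, adj]
  cases r x y <;> cases r y x <;> cases r x z <;> cases r z x <;> cases r y z <;> cases r z y <;> rfl

/-- the sum of `F (g x)` for the map `g` which sends `v` to `u` -/
lemma sum_upd [Fintype V] [DecidableEq V] (u v : V) (F : V → ℝ) :
    ∑ x, F (Function.update id v u x) = ∑ x, F x + F u - F v := by
  have h1 : ∑ x, (F (Function.update id v u x) - F x) = F u - F v := by
    rw [Finset.sum_eq_single v]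
    · rw [Function.update_self]
    · intro b _ hb
      rw [Function.update_of_ne hb]
      simp
    · intro h
      exact absurd (Finset.mem_univ v) h
  rw [Finset.sum_sub_distrib] at h1
  linarith

/-- expansion of a symmetric sum -/
lemma expand [Fintype V] [DecidableEq V] (h : V → V → V → ℝ) (s1 : ∀ x y z, h x y z = h y x z)
    (s2 : ∀ x y z, h x y z = h x z y) (u v : V) :
    ∑ x, ∑ y, ∑ z, h (Function.update id v u x) (Function.update id v u y)
        (Function.update id v u z) =
      ∑ x, ∑ y, ∑ z, h x y z + 3 * (∑ y, ∑ z, h u y z - ∑ y, ∑ z, h v y z) +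
        3 * (∑ z, h u u z - 2 * ∑ z, h u v z + ∑ z, h v v z) +
        (h u u u - 3 * h u u v + 3 * h u v v - h v v v) := by
  have e1 : ∀ a b, ∑ z, h a b (Function.update id v u z) = ∑ z, h a b z + h a b u - h a b v :=
    fun a b => sum_upd u v (h a b)
  have e2 : ∀ a, ∑ y, ∑ z, h a (Function.update id v u y) (Function.update id v u z) =
      ∑ y, ∑ z, h a y z + 2 * ∑ z, h a u z - 2 * ∑ z, h a v z +
        (h a u u - 2 * h a u v + h a v v) := by
    intro a
    simp only [e1]
    have h1 := sum_upd u v (fun y => ∑ z, h a y z + h a y u - h a y v)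
    rw [h1, Finset.sum_sub_distrib, Finset.sum_add_distrib]
    have h2 : ∑ y, h a y u = ∑ z, h a u z := Finset.sum_congr rfl fun y _ => s2 a y u
    have h3 : ∑ y, h a y v = ∑ z, h a v z := Finset.sum_congr rfl fun y _ => s2 a y v
    rw [h2, h3, s2 a v u]
    ring
  simp only [e2]
  have h1 := sum_upd u v (fun x => ∑ y, ∑ z, h x y z + 2 * ∑ z, h x u z - 2 * ∑ z, h x v z +
        (h x u u - 2 * h x u v + h x v v))
  rw [h1]
  simp only [Finset.sum_add_distrib, Finset.sum_sub_distrib, ← Finset.mul_sum]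
  have h2 : ∀ w, ∑ x, ∑ z, h x w z = ∑ y, ∑ z, h w y z := fun w =>
    Finset.sum_congr rfl fun x _ => Finset.sum_congr rfl fun z _ => s1 x w z
  have h3 : ∀ a b, ∑ x, h x a b = ∑ z, h a b z := fun a b =>
    Finset.sum_congr rfl fun x _ => by rw [s1, s2]
  have h4 : ∑ z, h v u z = ∑ z, h u v z := Finset.sum_congr rfl fun z _ => s1 v u z
  have h5 : h v u u = h u u v := by rw [s1, s2]
  have h6 : h v u v = h u v v := by rw [s1]
  have h7 : h u v u = h u u v := by rw [s2]
  rw [h2, h2, h3, h3, h3, h4, h5, h6]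
  ring

end basic

section clone

variable {V : Type} [Fintype V] [DecidableEq V] [Nonempty V]

lemma card_pos' : (1 : ℝ) ≤ (Fintype.card V : ℝ) := by
  exact_mod_cast Fintype.card_pos (α := V)

lemma fv_eq (r : V → V → Bool) (x : V) :
    (Fintype.card V : ℝ) ^ 2 * fv r x = ∑ y, ∑ z, B (miss r x y z) := by
  have hN : (Fintype.card V : ℝ) ≠ 0 := by
    have := card_pos' (V := V)
    positivity
  unfold fv av
  rw [← Finset.sum_div]
  field_simp

lemma FF_eq (r : V → V → Bool) :
    (Fintype.card V : ℝ) ^ 3 * FF r = ∑ x, ∑ y, ∑ z, B (miss r x y z) := by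
  have hN : (Fintype.card V : ℝ) ≠ 0 := by
    have := card_pos' (V := V)
    positivity
  have h1 : (Fintype.card V : ℝ) ^ 3 * FF r = ∑ x, (Fintype.card V : ℝ) ^ 2 * fv r x := by
    unfold FF av
    rw [← Finset.mul_sum]
    field_simp
  rw [h1]
  exact Finset.sum_congr rfl fun x _ => fv_eq r x

lemma sum_B_le (f : V → Bool) : ∑ z, B (f z) ≤ (Fintype.card V : ℝ) := by
  calc ∑ z, B (f z) ≤ ∑ _z : V, (1 : ℝ) := Finset.sum_le_sum fun z _ => B_le _
    _ = (Fintype.card V : ℝ) := by simp

lemma sum_B_nonneg (f : V → Bool) : 0 ≤ ∑ z, B (f z) := Finset.sum_nonneg fun z _ => B_nonneg _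

/-- cloning -/
lemma clone (r : V → V → Bool) (u v : V)
    (hmin : FF r ≤ FF (pull (Function.update id v u) r)) :
    fv r v ≤ fv r u + 4 / (Fintype.card V : ℝ) := by
  have hN := card_pos' (V := V)
  set N : ℝ := (Fintype.card V : ℝ) with hNdef
  have h1 : N ^ 3 * FF r ≤ N ^ 3 * FF (pull (Function.update id v u) r) :=
    mul_le_mul_of_nonneg_left hmin (by positivity)
  rw [hNdef, FF_eq, FF_eq] at h1
  have h2 := expand (fun x y z => B (miss r x y z)) (fun x y z => by rw [miss_swap])
    (fun x y z => by rw [miss_swap']) u v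
  simp only [miss_pull] at h1
  rw [h2, ← fv_eq, ← fv_eq] at h1
  have b1 := sum_B_le (fun z => miss r u u z)
  have b2 := sum_B_le (fun z => miss r v v z)
  have b3 := sum_B_nonneg (fun z => miss r u v z)
  have c1 := B_le (miss r u u u)
  have c2 := B_nonneg (miss r u u v)
  have c3 := B_le (miss r u v v)
  have c4 := B_nonneg (miss r v v v)
  rw [← hNdef] at h1 b1 b2
  have h3 : N ^ 2 * fv r v ≤ N ^ 2 * fv r u + 4 * N := by nlinarith
  have h4 : N ^ 2 * (fv r u + 4 / N) = N ^ 2 * fv r u + 4 * N := by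
    field_simp
  rw [← h4] at h3
  exact le_of_mul_le_mul_left h3 (by positivity)

lemma clone_all (r : V → V → Bool)
    (hmin : ∀ u v, FF r ≤ FF (pull (Function.update id v u) r)) (v : V) :
    fv r v ≤ FF r + 4 / (Fintype.card V : ℝ) := by
  have hN := card_pos' (V := V)
  have h1 : ∑ _u : V, fv r v ≤ ∑ u : V, (fv r u + 4 / (Fintype.card V : ℝ)) :=
    Finset.sum_le_sum fun u _ => clone r u v (hmin u v)
  rw [Finset.sum_add_distrib, Finset.sum_const, Finset.sum_const, Finset.card_univ, nsmul_eq_mul,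
    nsmul_eq_mul] at h1
  have h2 : (Fintype.card V : ℝ) * (FF r + 4 / (Fintype.card V : ℝ)) =
      ∑ u, fv r u + (Fintype.card V : ℝ) * (4 / (Fintype.card V : ℝ)) := by
    unfold FF av
    field_simp
  rw [← h2] at h1
  exact le_of_mul_le_mul_left h1 (by linarith)

end clone

lemma av_fst {V : Type} [Fintype V] [Nonempty V] (t : ℕ) (ht : 0 < t) (f : V → ℝ) :
    (av fun w : V × Fin t => f w.1) = av f := by
  unfold av
  rw [Fintype.sum_prod_type, Fintype.card_prod, Fintype.card_fin]
  simp only [Finset.sum_const, Finset.card_univ, Fintype.card_fin, nsmul_eq_mul]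
  rw [← Finset.mul_sum]
  have ht' : (t : ℝ) ≠ 0 := by positivity
  have hV : (Fintype.card V : ℝ) ≠ 0 := by
    have := Fintype.card_pos (α := V)
    positivity
  push_cast
  field_simp

lemma FF_blow {V : Type} [Fintype V] [Nonempty V] (t : ℕ) (ht : 0 < t) (r : V → V → Bool) :
    FF (pull (Prod.fst : V × Fin t → V) r) = FF r := by
  have h1 : ∀ w : V × Fin t, fv (pull (Prod.fst : V × Fin t → V) r) w = fv r w.1 := by
    intro w
    unfold fv
    simp only [miss_pull]
    have h2 : ∀ y : V × Fin t, (av fun z : V × Fin t => B (miss r w.1 y.1 z.1)) =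
        av fun z : V => B (miss r w.1 y.1 z) := fun y => av_fst t ht (fun z => B (miss r w.1 y.1 z))
    simp only [h2]
    exact av_fst t ht (fun y => av fun z : V => B (miss r w.1 y z))
  unfold FF
  simp only [h1]
  exact av_fst t ht (fun x => fv r x)

theorem t_TOP : S_TOP := by
  intro hmain V _ _ _ r0 ho0 hc0
  by_contra hlt
  push Not at hlt
  obtain ⟨t, ht⟩ := exists_nat_gt (11 / (4 / 9 - FF r0))
  have heps : 0 < 4 / 9 - FF r0 := by linarith
  have ht0 : (0 : ℝ) < t := lt_trans (by positivity) ht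
  have ht1 : 0 < t := by exact_mod_cast ht0
  haveI : NeZero t := ⟨ht1.ne'⟩
  let W := V × Fin t
  let X := {r : W → W → Bool // Ori r ∧ NoC4 r}
  haveI : Nonempty X := ⟨⟨pull Prod.fst r0, pull_ori _ ho0, pull_noC4 _ hc0⟩⟩
  obtain ⟨⟨r, hro, hrc⟩, hmin⟩ := Finite.exists_min (fun s : X => FF s.1)
  have h1 : FF r ≤ FF r0 := by
    have := hmin ⟨pull Prod.fst r0, pull_ori _ ho0, pull_noC4 _ hc0⟩
    rwa [FF_blow t ht1 r0] at this
  have hN : (t : ℝ) ≤ (Fintype.card W : ℝ) := by
    have h2 : t ≤ Fintype.card W := by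
      rw [Fintype.card_prod, Fintype.card_fin]
      exact Nat.le_mul_of_pos_left t Fintype.card_pos
    exact_mod_cast h2
  have h11 : 11 / (Fintype.card W : ℝ) < 4 / 9 - FF r0 := by
    have h2 : 11 / (Fintype.card W : ℝ) ≤ 11 / t := div_le_div_of_nonneg_left (by norm_num) ht0 hN
    have h3 : 11 / (t : ℝ) < 4 / 9 - FF r0 := by
      rw [div_lt_iff₀ ht0]
      rw [div_lt_iff₀ heps] at ht
      linarith
    linarith
  have h4 : 4 / (Fintype.card W : ℝ) ≤ 11 / (Fintype.card W : ℝ) := by
    gcongr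
    norm_num
  have h5 : ∀ v, fv r v ≤ 4 / 9 := by
    intro v
    have h6 := clone_all r (fun u v => hmin ⟨pull (Function.update id v u) r, pull_ori _ hro,
      pull_noC4 _ hrc⟩) v
    linarith
  have h7 := hmain W r hro hrc h5
  linarith

end Pool.Agent.P8H76.FDF
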