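import Pool.Agent.P8H39.FDF.Stm2
import Pool.Agent.P8H76.FDF.Top

/-!
# Project FDF: SHARP and K4
-/

set_option autoImplicit false

namespace Pool.Agent.P8H76.FDF

open P8H39.FDF Finset

/-- the cyclic triangle -/
def r3 : Fin 3 → Fin 3 → Bool := fun x y => decide (y = x + 1)

lemma r3_ori : Ori r3 := by
  unfold Ori r3
  decide

lemma r3_noC4 : NoC4 r3 := by
  unfold NoC4 r3 adj
  decide

lemma FF_r3 : FF r3 = 4 / 9 := by
  have h1 := FF_eq r3
  have h2 : ∑ x, ∑ y, ∑ z, B (miss r3 x y z) = 12 := by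
    have h3 : ∀ x y z, B (miss r3 x y z) = ((miss r3 x y z).toNat : ℝ) := by
      intro x y z
      unfold B
      cases miss r3 x y z <;> simp
    simp only [h3]
    have h4 : ∑ x : Fin 3, ∑ y : Fin 3, ∑ z : Fin 3, (miss r3 x y z).toNat = 12 := by decide
    exact_mod_cast h4
  rw [h2, Fintype.card_fin] at h1
  push_cast at h1
  linarith

theorem t_SHARP : S_SHARP := by
  intro q hq
  refine ⟨pull_ori Prod.fst r3_ori, pull_noC4 Prod.fst r3_noC4, ?_⟩
  have : NeZero q := ⟨by omega⟩
  exact (FF_blow q hq r3).trans FF_r3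

/-! ### K4 -/

/-- `miss` in terms of the six truth values -/
def mb (xy yx xz zx yz zy : Bool) : Bool :=
  (xy && xz) || (yx && yz) || (zx && zy) ||
    !(((xy || yx) && (xz || zx)) || ((xy || yx) && (yz || zy)) || ((xz || zx) && (yz || zy)))

/-- four-cycle condition -/
def cb4 (xy yz zw wx xz zx yw wy : Bool) : Bool :=
  !(xy && yz && zw && wx) || (xz || zx) || (yw || wy)

/-- the check for four vertices -/
def ch (ab ba ac ca ad da bc cb bd db cd dc : Bool) : Bool :=
  !(!(ab && ba) && !(ac && ca) && !(ad && da) && !(bc && cb) && !(bd && db) && !(cd && dc) &&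
    !(mb ab ba ac ca bc cb) && !(mb ab ba ad da bd db) && !(mb ac ca ad da cd dc) &&
    !(mb bc cb bd db cd dc) &&
    cb4 ab bc cd da ac ca bd db && cb4 ad dc cb ba ac ca db bd &&
    cb4 ab bd dc ca ad da bc cb && cb4 ac cd db ba ad da cb bc &&
    cb4 ac cb bd da ab ba cd dc && cb4 ad db bc ca ab ba dc cd)

lemma ch_true : ∀ ab ba ac ca ad da bc cb bd db cd dc : Bool,
    ch ab ba ac ca ad da bc cb bd db cd dc = true := by
  decide +kernel

lemma fdf_of_miss {V : Type} [DecidableEq V] (r : V → V → Bool) (ho : Ori r) (x y z : V)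
    (hxy : x ≠ y) (hxz : x ≠ z) (hyz : y ≠ z) (h : miss r x y z = true) :
    fdf r ({x, y, z} : Finset V) := by
  have hs : ∀ v, r v v = false := by
    intro v
    by_contra hv
    rw [Bool.not_eq_false] at hv
    have := ho v v hv
    rw [hv] at this
    exact Bool.noConfusion this
  unfold fdf
  simp only [Finset.mem_insert, Finset.mem_singleton, exists_eq_or_imp, exists_eq_left,
    forall_eq_or_imp, forall_eq, hs]
  have hyx := hxy.symm
  have hzx := hxz.symm
  have hzy := hyz.symm
  simp only [miss, le1, adj] at h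
  revert h
  cases r x y <;> cases r y x <;> cases r x z <;> cases r z x <;> cases r y z <;> cases r z y <;>
    simp [hxy, hxz, hyz, hyx, hzx, hzy]

theorem t_K4 : S_K4 := by
  intro V _ r ho t ht hc
  obtain ⟨a, ha⟩ : t.Nonempty := Finset.card_pos.1 (by omega)
  have h3 : (t.erase a).card = 3 := by rw [Finset.card_erase_of_mem ha]; omega
  obtain ⟨b, c, d, hbc, hbd, hcd, he⟩ := Finset.card_eq_three.1 h3
  have hb : b ∈ t.erase a := by rw [he]; simp
  have hcm : c ∈ t.erase a := by rw [he]; simp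
  have hd : d ∈ t.erase a := by rw [he]; simp
  obtain ⟨hba, hb⟩ := Finset.mem_erase.1 hb
  obtain ⟨hca, hcm⟩ := Finset.mem_erase.1 hcm
  obtain ⟨hda, hd⟩ := Finset.mem_erase.1 hd
  by_contra hcon
  push Not at hcon
  have hmiss : ∀ x ∈ t, ∀ y ∈ t, ∀ z ∈ t, x ≠ y → x ≠ z → y ≠ z → miss r x y z = false := by
    intro x hx y hy z hz hxy hxz hyz
    by_contra hm
    rw [Bool.not_eq_false] at hm
    refine hcon {x, y, z} ?_ ?_ (fdf_of_miss r ho x y z hxy hxz hyz hm)
    · intro w hw
      simp only [Finset.mem_insert, Finset.mem_singleton] at hw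
      rcases hw with rfl | rfl | rfl <;> assumption
    · exact Finset.card_eq_three.2 ⟨x, y, z, hxy, hxz, hyz, rfl⟩
  have horb : ∀ x y, (r x y && r y x) = false := by
    intro x y
    cases h : r x y
    · rfl
    · rw [ho x y h]; rfl
  have hcb : ∀ x ∈ t, ∀ y ∈ t, ∀ z ∈ t, ∀ w ∈ t,
      cb4 (r x y) (r y z) (r z w) (r w x) (r x z) (r z x) (r y w) (r w y) = true := by
    intro x hx y hy z hz w hw
    unfold cb4
    by_cases h : (r x y && r y z && r z w && r w x) = true
    · rw [h]
      simp only [Bool.and_eq_true] at h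
      obtain ⟨⟨⟨h1, h2⟩, h3'⟩, h4⟩ := h
      rcases hc x hx y hy z hz w hw h1 h2 h3' h4 with h5 | h5
      · unfold adj at h5
        rw [h5]
        simp
      · unfold adj at h5
        rw [h5]
        simp
    · rw [Bool.not_eq_true] at h
      rw [h]
      rfl
  have h1 := ch_true (r a b) (r b a) (r a c) (r c a) (r a d) (r d a) (r b c) (r c b) (r b d) (r d b)
    (r c d) (r d c)
  have m1 : mb (r a b) (r b a) (r a c) (r c a) (r b c) (r c b) = false :=
    hmiss a ha b hb c hcm hba.symm hca.symm hbc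
  have m2 : mb (r a b) (r b a) (r a d) (r d a) (r b d) (r d b) = false :=
    hmiss a ha b hb d hd hba.symm hda.symm hbd
  have m3 : mb (r a c) (r c a) (r a d) (r d a) (r c d) (r d c) = false :=
    hmiss a ha c hcm d hd hca.symm hda.symm hcd
  have m4 : mb (r b c) (r c b) (r b d) (r d b) (r c d) (r d c) = false :=
    hmiss b hb c hcm d hd hbc hbd hcd
  unfold ch at h1
  rw [m1, m2, m3, m4, horb a b, horb a c, horb a d, horb b c, horb b d, horb c d,
    hcb a ha b hb c hcm d hd, hcb a ha d hd c hcm b hb, hcb a ha b hb d hd c hcm,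
    hcb a ha c hcm d hd b hb, hcb a ha c hcm b hb d hd, hcb a ha d hd b hb c hcm] at h1
  exact Bool.noConfusion h1

end Pool.Agent.P8H76.FDF
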